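import Pool.Agent.H28.MCL.Targets
import Pool.Agent.H27.T2.Sign

/-!
# The theorem with the constant from the deterministic bound
-/

set_option autoImplicit false

open Finset Filter Topology

namespace Pool.Agent.H59.MCL

open Pool.Agent.H24.MR (lam)
open Pool.Agent.H24.T2 (Fr)
open Pool.Agent.H27.T2 (good Fr_val exists_modulus)
open Pool.Agent.H28.MCL

/-! ### Bounds -/

theorem abs_lam (n : ℕ) : |lam n| = 1 := by
  unfold lam
  rw [abs_pow, abs_neg, abs_one, one_pow]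

theorem abs_gs (S : Finset ℤ) (y : ℕ) : |gs S y| = 1 := by
  unfold gs
  rw [Finset.abs_prod]
  exact Finset.prod_eq_one fun a _ => abs_lam _

theorem abs_Fr {r : ℕ} (α : Fin r → ℤ) (ε : Fin r → ℕ) (y : ℕ) : |Fr α ε y| ≤ 1 := by
  rcases Fr_val α ε y with h | h | h <;> rw [h] <;> norm_num

theorem ind_nonneg (P : ℕ → Prop) (n : ℕ) : 0 ≤ ind P n := by
  unfold ind
  split_ifs <;> norm_num

theorem ind_le_one (P : ℕ → Prop) (n : ℕ) : ind P n ≤ 1 := by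
  unfold ind
  split_ifs <;> norm_num

theorem ind_of {P : ℕ → Prop} {n : ℕ} (h : P n) : ind P n = 1 := by
  unfold ind
  rw [if_pos h]

theorem log_nonneg' {x y : ℕ} (hx : 0 < x) (hxy : x ≤ y) : 0 ≤ Real.log ((y : ℝ) / x) := by
  have hx' : (0 : ℝ) < x := by exact_mod_cast hx
  have hy' : (x : ℝ) ≤ y := by exact_mod_cast hxy
  apply Real.log_nonneg
  rw [le_div_iff₀ hx', one_mul]
  exact hy'

theorem Bd_mono {b : ℕ → ℝ} {δ δ' : ℝ} (h : Bd b δ) (hd : δ ≤ δ') : Bd b δ' := by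
  obtain ⟨K, hK⟩ := h
  refine ⟨max K 1, fun x y hx hxy => ?_⟩
  have h1 : K * x ≤ y := (Nat.mul_le_mul_right x (le_max_left K 1)).trans hxy
  have h2 : 1 * x ≤ y := (Nat.mul_le_mul_right x (le_max_right K 1)).trans hxy
  rw [one_mul] at h2
  exact (hK x y hx h1).trans (mul_le_mul_of_nonneg_right hd (log_nonneg' hx h2))

theorem mean_le_one {ι : Type} (s : Finset ι) (f : ι → ℝ) (c : ℝ) (hc : 0 ≤ c)
    (hs : (s.card : ℝ) ≤ c) (h0 : ∀ i ∈ s, 0 ≤ f i) (h1 : ∀ i ∈ s, f i ≤ 1) :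
    0 ≤ 1 / c * ∑ i ∈ s, f i ∧ 1 / c * ∑ i ∈ s, f i ≤ 1 := by
  have hsum0 : 0 ≤ ∑ i ∈ s, f i := Finset.sum_nonneg h0
  have hsum1 : ∑ i ∈ s, f i ≤ c := by
    refine (Finset.sum_le_card_nsmul s f 1 h1).trans ?_
    rw [nsmul_eq_mul, mul_one]
    exact hs
  refine ⟨mul_nonneg (by positivity) hsum0, ?_⟩
  rcases hc.eq_or_lt with h | h
  · rw [← h, div_zero, zero_mul]
    norm_num
  · rw [one_div, inv_mul_le_iff₀ h, mul_one]
    exact hsum1

theorem bc_bd {m : ℕ} (W : ℕ) (κ : ℝ) (h : ℕ) (A : Fin m → Finset ℕ) (g : Fin m → ℕ → ℝ)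
    (l : Fin m) (j z : ℕ) : 0 ≤ bc W κ h A g l j z ∧ bc W κ h A g l j z ≤ 1 := by
  unfold bc
  exact mean_le_one _ _ _ (Nat.cast_nonneg _) le_rfl (fun a _ => ind_nonneg _ _)
    (fun a _ => ind_le_one _ _)

theorem bb_bd {m : ℕ} (D W : ℕ) (κ : ℝ) (h : ℕ) (A : Fin m → Finset ℕ) (g : Fin m → ℕ → ℝ)
    (z : ℕ) (hD : 2 ≤ D) : 0 ≤ bb D W κ h A g z ∧ bb D W κ h A g z ≤ 1 := by
  unfold bb
  have hD' : (2 : ℝ) ≤ D := by exact_mod_cast hD
  rw [← Finset.sum_product']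
  refine mean_le_one _ _ _ (by
    have : (0 : ℝ) ≤ m := Nat.cast_nonneg m
    exact mul_nonneg this (by linarith)) ?_ (fun a _ => (bc_bd W κ h A g _ _ z).1)
    (fun a _ => (bc_bd W κ h A g _ _ z).2)
  rw [Finset.card_product, Finset.card_univ, Fintype.card_fin, Nat.card_Ico, Nat.cast_mul,
    Nat.cast_sub (by omega), Nat.cast_one]

theorem ee_bd {m : ℕ} (q n₀ : ℕ) (τ : Fin m → ℕ) (F G : Fin m → ℕ → ℝ) (z : ℕ) :
    0 ≤ ee q n₀ τ F G z ∧ ee q n₀ τ F G z ≤ 1 := by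
  unfold ee
  refine mean_le_one _ _ _ (Nat.cast_nonneg _) ?_ (fun a _ => ind_nonneg _ _)
    (fun a _ => ind_le_one _ _)
  rw [Finset.card_univ, Fintype.card_fin]

theorem exists_zeta (V η : ℝ) (hV : 0 ≤ V) (h : Real.sqrt V < η) :
    ∃ ζ : ℝ, 0 < ζ ∧ Real.sqrt (V + ζ) + ζ ≤ η * (1 - 2 * ζ) := by
  have hsV := Real.sqrt_nonneg V
  have hη : 0 < η := lt_of_le_of_lt hsV h
  obtain ⟨s, hs⟩ : ∃ s : ℝ, s = min (1 / 4) ((η - Real.sqrt V) / (2 + 2 * η)) := ⟨_, rfl⟩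
  have hs0 : 0 < s := by
    rw [hs]
    apply lt_min (by norm_num)
    apply div_pos (by linarith) (by linarith)
  have hs1 : s ≤ 1 / 4 := hs ▸ min_le_left _ _
  have hs2 : s * (2 + 2 * η) ≤ η - Real.sqrt V := by
    rw [← le_div_iff₀ (by linarith)]
    exact hs ▸ min_le_right _ _
  refine ⟨s ^ 2, by positivity, ?_⟩
  have h1 : Real.sqrt (V + s ^ 2) ≤ Real.sqrt V + s := by
    rw [Real.sqrt_le_iff]
    refine ⟨by linarith, ?_⟩
    have := Real.sq_sqrt hV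
    nlinarith
  have h2 : s ^ 2 ≤ s := by nlinarith
  have h3 : η * s ^ 2 ≤ η * s := mul_le_mul_of_nonneg_left h2 hη.le
  nlinarith

theorem mm_nonneg {m : ℕ} (q W H T : ℕ) (A : Fin m → Finset ℕ) : 0 ≤ mm q W A H T := by
  unfold mm
  refine mul_nonneg (div_nonneg (Nat.cast_nonneg _) (Nat.cast_nonneg _)) ?_
  refine Finset.prod_nonneg fun l _ => ?_
  exact mul_nonneg (Nat.cast_nonneg _) (div_nonneg (Nat.cast_nonneg _) (Nat.cast_nonneg _))

theorem err_le (m q W H T : ℕ) (A : Fin m → Finset ℕ) (c ζ θ₂ : ℝ) (hm : 1 ≤ m) (hq : 0 < q)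
    (hW : 0 < W) (hc0 : 0 < c) (hζ : 0 < ζ) (hθ₂ : θ₂ = ζ * c ^ m / (8 * m * q))
    (hA : ∀ l, c * W ≤ ((A l).card : ℝ)) :
    8 * m * θ₂ * (T : ℝ) ^ m * H ≤ ζ * mm q W A H T := by
  have hm' : (m : ℝ) ≠ 0 := by
    have : m ≠ 0 := by omega
    exact_mod_cast this
  have hq' : (0 : ℝ) < q := by exact_mod_cast hq
  have hW' : (0 : ℝ) < W := by exact_mod_cast hW
  have h1 : (c * T) ^ m ≤ ∏ l : Fin m, (((A l).card : ℝ) * ((T : ℝ) / W)) := by
    have h2 : ∏ _l : Fin m, (c * (T : ℝ)) = (c * T) ^ m := by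
      rw [Finset.prod_const, Finset.card_univ, Fintype.card_fin]
    rw [← h2]
    apply Finset.prod_le_prod
    · intro l _
      positivity
    · intro l _
      have h3 := mul_le_mul_of_nonneg_right (hA l) (by positivity : (0 : ℝ) ≤ (T : ℝ) / W)
      refine le_trans (le_of_eq ?_) h3
      field_simp
  unfold mm
  have h4 : 8 * m * θ₂ * (T : ℝ) ^ m * H = ζ * ((H : ℝ) / q * (c * T) ^ m) := by
    rw [hθ₂, mul_pow]
    field_simp
  rw [h4]
  apply mul_le_mul_of_nonneg_left _ hζ.le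
  exact mul_le_mul_of_nonneg_left h1 (by positivity)

theorem thr_eq (δ θ : ℝ) (hθ : 0 < θ) : 12 * (δ * θ / 24) / θ = δ / 2 := by
  rw [div_eq_iff hθ.ne']
  ring

theorem thr_le (R w θ₂ δ : ℝ) (hw : 0 < w) (hθ : 0 < θ₂) (hδ : 0 < δ)
    (h : 24 * (4 * R + 1) / (θ₂ * δ) ≤ w) : 12 * ((4 * R + 1) / w) / θ₂ ≤ δ / 2 := by
  rw [div_le_iff₀ (by positivity)] at h
  rw [div_le_iff₀ hθ, ← mul_div_assoc, div_le_iff₀ hw]
  nlinarith

open Classical in
theorem gen (hM : T_MAX) (hB : T_BAV) (hE : T_ERR) (hP : T_POS) (hL : T_LOW) (hS : T_ERS)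
    (hF : T_FNL) : T_GEN := by
  intro k m D δ θ κ V η hm hD hδ hθ hκ hκ1 hV hη hBB hDT
  intro r α ε q n₀ τ hα hε hodd hk hq
  by_cases hz : ∃ l, ∀ y, y ≡ n₀ + τ l [MOD q] → Fr (α l) (ε l) y = 0
  · obtain ⟨l, hl⟩ := hz
    refine ⟨1, fun x y hx hxy => ?_⟩
    rw [one_mul] at hxy
    have hprod : ∀ (H N T : ℕ), ∀ t ∈ bx m T q τ, ∀ n ∈ iv N H q n₀,
        ∏ l, Fr (α l) (ε l) (n + t l) = 0 := by
      intro H N T t ht n hn
      apply Finset.prod_eq_zero (Finset.mem_univ l)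
      apply hl
      unfold bx at ht
      unfold iv at hn
      rw [Finset.mem_filter] at ht hn
      exact hn.2.add (ht.2 l)
    have hempty : ∀ N : ℕ, ¬ ∃ (H T : ℕ) (w : ℕ → ℝ), 1 ≤ H ∧ H ≤ N ∧ 1 ≤ T ∧
          T ≤ N ∧ (∀ n, |w n| ≤ 1) ∧
          η * rhs q n₀ τ (fun l => Fr (α l) (ε l)) N H T <
            lhs q n₀ τ (fun l => Fr (α l) (ε l)) w N H T := by
      rintro N ⟨H, T, w, _, _, _, _, _, hlt⟩
      have e1 : lhs q n₀ τ (fun l => Fr (α l) (ε l)) w N H T = 0 := by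
        unfold lhs
        apply Finset.sum_eq_zero
        intro t ht
        rw [abs_eq_zero]
        apply Finset.sum_eq_zero
        intro n hn
        rw [hprod H N T t ht n hn, mul_zero]
      have e2 : rhs q n₀ τ (fun l => Fr (α l) (ε l)) N H T = 0 := by
        unfold rhs
        apply Finset.sum_eq_zero
        intro t ht
        apply Finset.sum_eq_zero
        intro n hn
        rw [← Finset.abs_prod, hprod H N T t ht n hn, abs_zero]
      rw [e1, e2, mul_zero] at hlt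
      exact lt_irrefl _ hlt
    rw [Finset.filter_false_of_mem (fun N _ => hempty N), Finset.sum_empty]
    exact mul_nonneg hδ.le (log_nonneg' hx hxy)
  · push Not at hz
    have hPl : ∀ l, ∃ c : ℝ, 0 < c ∧ ∀ w W : ℕ, 0 < W → q ∣ W →
        (∀ p : ℕ, p.Prime → p ≤ w → p ^ 2 ∣ W) →
        c * W ≤ ((good (α l) q (n₀ + τ l) w W).card : ℝ) := fun l =>
      hP (r l) (α l) (ε l) q (n₀ + τ l) (hα l) (hε l) (hodd l) hq (hz l)
    choose cl hcl0 hcl using hPl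
    obtain ⟨l₀, -, hl₀⟩ := Finset.exists_min_image (Finset.univ : Finset (Fin m)) cl
      ⟨⟨0, hm⟩, Finset.mem_univ _⟩
    obtain ⟨c, hc⟩ : ∃ c, c = cl l₀ := ⟨_, rfl⟩
    have hc0 : 0 < c := hc ▸ hcl0 l₀
    have hcle : ∀ l, c ≤ cl l := fun l => hc ▸ hl₀ l (Finset.mem_univ l)
    obtain ⟨ζ, hζ, hζV⟩ := exists_zeta V η hV hη
    have hη0 : 0 ≤ η := (Real.sqrt_nonneg V).trans hη.le
    have hm' : (1 : ℝ) ≤ m := by exact_mod_cast hm
    have hq' : (0 : ℝ) < q := by exact_mod_cast hq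
    obtain ⟨θ₂, hθ₂⟩ : ∃ θ₂ : ℝ, θ₂ = ζ * c ^ m / (8 * m * q) := ⟨_, rfl⟩
    have hθ₂0 : 0 < θ₂ := by
      rw [hθ₂]
      positivity
    obtain ⟨R, hR⟩ : ∃ R : ℕ, R = ∑ l, r l := ⟨_, rfl⟩
    obtain ⟨w₀, hw₀⟩ := exists_nat_ge (24 * (4 * (R : ℝ) + 1) / (θ₂ * δ))
    obtain ⟨w, hw⟩ : ∃ w : ℕ, w = max (max q 2) w₀ := ⟨_, rfl⟩
    have hwq : q ≤ w := hw ▸ (le_max_left q 2).trans (le_max_left _ _)
    have hw2 : 2 ≤ w := hw ▸ (le_max_right q 2).trans (le_max_left _ _)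
    have hww : (w₀ : ℝ) ≤ w := by
      have : w₀ ≤ w := hw ▸ le_max_right _ _
      exact_mod_cast this
    have hw0 : (0 : ℝ) < w := by
      have : 0 < w := by omega
      exact_mod_cast this
    obtain ⟨W, hW, hWe, hqW, -, hsq⟩ := exists_modulus q w hq hwq hw2
    have hW' : (0 : ℝ) < W := by exact_mod_cast hW
    obtain ⟨A, hA⟩ : ∃ A : Fin m → Finset ℕ, A = fun l => good (α l) q (n₀ + τ l) w W := ⟨_, rfl⟩
    obtain ⟨g, hg⟩ : ∃ g : Fin m → ℕ → ℝ, g = fun l => gs (od (α l) (ε l)) := ⟨_, rfl⟩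
    obtain ⟨F, hFd⟩ : ∃ F : Fin m → ℕ → ℝ, F = fun l => Fr (α l) (ε l) := ⟨_, rfl⟩
    obtain ⟨G, hG⟩ : ∃ G : Fin m → ℕ → ℝ, G = gc W A g := ⟨_, rfl⟩
    rw [← hFd]
    have hAr : ∀ l, A l ⊆ Finset.range W := by
      intro l
      rw [hA]
      exact Finset.filter_subset _ _
    have hAc : ∀ l, ∀ a ∈ A l, a ≡ n₀ + τ l [MOD q] := by
      intro l a ha
      rw [hA] at ha
      have ha' : a ∈ good (α l) q (n₀ + τ l) w W := ha
      unfold good at ha'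
      exact (Finset.mem_filter.1 ha').2.1
    have hAcard : ∀ l, c * W ≤ ((A l).card : ℝ) := by
      intro l
      rw [hA]
      exact (mul_le_mul_of_nonneg_right (hcle l) hW'.le).trans (hcl l w W hW hqW hsq)
    have hg1 : ∀ l y, |g l y| = 1 := by
      intro l y
      rw [hg]
      exact abs_gs _ _
    have hF1 : ∀ l y, |F l y| ≤ 1 := by
      intro l y
      rw [hFd]
      exact abs_Fr _ _ _
    have hG1 : ∀ l y, |G l y| ≤ 1 := by
      intro l y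
      rw [hG]
      unfold gc
      split_ifs
      · exact (hg1 l y).le
      · norm_num
    -- the bad windows
    obtain ⟨h₀, hh₀⟩ := hBB (fun l => od (α l) (ε l)) W A (fun l => by
      constructor
      · obtain ⟨i, hi⟩ := hodd l
        exact ⟨α l i, Finset.mem_image_of_mem _ (Finset.mem_filter.2 ⟨Finset.mem_univ i, hi⟩)⟩
      · exact Finset.card_image_le.trans (hk l)) hW hWe hAr
    obtain ⟨h₁, hh₁⟩ := hDT q W hq hqW hW ζ hζ
    obtain ⟨h, hh⟩ : ∃ h : ℕ, h = max h₀ h₁ := ⟨_, rfl⟩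
    have hbd1 := hh₀ h (hh ▸ le_max_left _ _)
    rw [← hg] at hbd1
    obtain ⟨K₁, hK₁⟩ := hM (bb D W κ h A g) (δ * θ / 24) θ
      (fun n => (bb_bd D W κ h A g n hD).1) (fun n => (bb_bd D W κ h A g n hD).2)
      (by positivity) hθ hbd1
    -- the errors
    have hbd2 : Bd (ee q n₀ τ F G) ((4 * R + 1) / w) := by
      have h1 : ee q n₀ τ F G = fun z => ∑ l : Fin m, (1 / (m : ℝ)) *
          ind (fun y => y ≡ n₀ + τ l [MOD q] ∧ F l y ≠ G l y) z := by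
        funext z
        unfold ee
        rw [Finset.mul_sum]
      rw [h1]
      refine hB (Fin m) (fun l => ind (fun y => y ≡ n₀ + τ l [MOD q] ∧ F l y ≠ G l y))
        (fun _ => 1 / (m : ℝ)) ((4 * R + 1) / w) (by positivity) (fun _ => by positivity) ?_ ?_
      · rw [Finset.sum_const, Finset.card_univ, Fintype.card_fin, nsmul_eq_mul]
        have : (m : ℝ) ≠ 0 := by positivity
        rw [mul_one_div_cancel this]
      · intro l
        have h2 := hE (r l) (α l) (ε l) q (n₀ + τ l) w W (hα l) (hε l) hq (by omega) hW hqW hsq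
        refine Bd_mono (b := ind (fun y => y ≡ n₀ + τ l [MOD q] ∧ F l y ≠ G l y)) ?_
          (δ := (4 * (r l : ℝ) + 1) / w) ?_
        · rw [hFd, hG, hA, hg]
          exact h2
        · have h3 : r l ≤ R := by
            rw [hR]
            exact Finset.single_le_sum (f := r) (fun _ _ => Nat.zero_le _) (Finset.mem_univ l)
          have h4 : (r l : ℝ) ≤ R := by exact_mod_cast h3
          apply div_le_div_of_nonneg_right _ hw0.le
          linarith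
    obtain ⟨K₂, hK₂⟩ := hM (ee q n₀ τ F G) ((4 * R + 1) / w) θ₂
      (fun n => (ee_bd q n₀ τ F G n).1) (fun n => (ee_bd q n₀ τ F G n).2)
      (by positivity) hθ₂0 hbd2
    obtain ⟨K₃, hK₃⟩ := hh₁ h (hh ▸ le_max_right _ _)
    obtain ⟨K₄, hK₄⟩ := hL m q W ζ hq hW hqW hζ
    obtain ⟨K, hK⟩ : ∃ K : ℕ, K = max (max (max K₁ K₂) (max K₃ K₄)) 1 := ⟨_, rfl⟩
    have hKK₁ : K₁ ≤ K := by rw [hK]; simp
    have hKK₂ : K₂ ≤ K := by rw [hK]; simp
    have hKK₃ : K₃ ≤ K := by rw [hK]; simp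
    have hKK₄ : K₄ ≤ K := by rw [hK]; simp
    have hKK₅ : 1 ≤ K := by rw [hK]; simp
    refine ⟨K, fun x y hx hxy => ?_⟩
    have hx1 : x ≤ y := by
      have := (Nat.mul_le_mul_right x hKK₅).trans hxy
      rwa [one_mul] at this
    have hlog := log_nonneg' hx hx1
    -- the deterministic bound
    have key : ∀ N : ℕ, Gd (bb D W κ h A g) θ N → Gd (ee q n₀ τ F G) θ₂ N → ∀ (H T : ℕ)
        (v : ℕ → ℝ), K ≤ H → H ≤ N → K ≤ T → T ≤ N → (∀ n, |v n| ≤ 1) →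
        lhs q n₀ τ F v N H T ≤ η * rhs q n₀ τ F N H T := by
      intro N hgd1 hgd2 H T v hKH hHN hKT hTN hv
      have e1 := hK₃ n₀ τ A g hAr hAc (fun l y => (hg1 l y).le) N H T (hKK₃.trans hKH) hHN
        (hKK₃.trans hKT) hTN hgd1 v hv
      have e2 := hK₄ n₀ τ A g hAr hAc hg1 N H T (hKK₄.trans hKH) hHN (hKK₄.trans hKT)
      have e3 := hS m q n₀ τ F G θ₂ N H T hm hq hθ₂0 hF1 hG1 (hKK₅.trans hKH) hHN
        (hKK₅.trans hKT) hTN hgd2
      have hmm0 : 0 ≤ mm q W A H T := mm_nonneg q W H T A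
      have e4 : 8 * m * θ₂ * (T : ℝ) ^ m * H ≤ ζ * mm q W A H T :=
        err_le m q W H T A c ζ θ₂ hm hq hW hc0 hζ hθ₂ hAcard
      rw [← hG] at e1 e2
      exact hF m q n₀ τ F G v N H T (mm q W A H T) (V + ζ) ζ η hmm0 (by linarith) hη0 hv
        (e3.trans e4) e1 e2 hζV
    have s1 := hK₁ x y hx ((Nat.mul_le_mul_right x hKK₁).trans hxy)
    have s2 := hK₂ x y hx ((Nat.mul_le_mul_right x hKK₂).trans hxy)
    have c1 : 12 * (δ * θ / 24) / θ = δ / 2 := thr_eq δ θ hθ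
    have c2 : 12 * ((4 * (R : ℝ) + 1) / w) / θ₂ ≤ δ / 2 :=
      thr_le R w θ₂ δ hw0 hθ₂0 hδ (hw₀.trans hww)
    rw [c1] at s1
    have s3 := s2.trans (mul_le_mul_of_nonneg_right c2 hlog)
    have s4 : ∑ N ∈ (Finset.Icc x y).filter (fun N => ∃ (H T : ℕ) (w : ℕ → ℝ), K ≤ H ∧ H ≤ N ∧
          K ≤ T ∧ T ≤ N ∧ (∀ n, |w n| ≤ 1) ∧
          η * rhs q n₀ τ F N H T < lhs q n₀ τ F w N H T), (1 : ℝ) / N ≤
        ∑ N ∈ Finset.Icc x y, (ind (fun N => ¬ Gd (bb D W κ h A g) θ N) N / N +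
          ind (fun N => ¬ Gd (ee q n₀ τ F G) θ₂ N) N / N) := by
      rw [Finset.sum_filter]
      apply Finset.sum_le_sum
      intro N _
      have hN0 : (0 : ℝ) ≤ N := Nat.cast_nonneg N
      have p1 : 0 ≤ ind (fun N => ¬ Gd (bb D W κ h A g) θ N) N / N :=
        div_nonneg (ind_nonneg _ _) hN0
      have p2 : 0 ≤ ind (fun N => ¬ Gd (ee q n₀ τ F G) θ₂ N) N / N :=
        div_nonneg (ind_nonneg _ _) hN0
      split_ifs with hN
      · obtain ⟨H, T, v, hKH, hHN, hKT, hTN, hv, hlt⟩ := hN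
        by_cases g1 : Gd (bb D W κ h A g) θ N
        · have g2 : ¬ Gd (ee q n₀ τ F G) θ₂ N := by
            intro g2
            exact absurd (key N g1 g2 H T v hKH hHN hKT hTN hv) (not_le.2 hlt)
          rw [ind_of (P := fun N => ¬ Gd (ee q n₀ τ F G) θ₂ N) g2]
          linarith
        · rw [ind_of (P := fun N => ¬ Gd (bb D W κ h A g) θ N) g1]
          linarith
      · linarith
    rw [Finset.sum_add_distrib] at s4
    linarith

end Pool.Agent.H59.MCL
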