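import Pool.Agent.H28.MCL.Targets
import Pool.Agent.H24.T2.Final

/-!
# A positive proportion of the classes is good
-/

set_option autoImplicit false

open Finset Filter Topology

namespace Pool.Agent.H59.MCL

open Pool.Agent.H24.T2 (Fr)
open Pool.Agent.H27.T2 (good mem_good)
open Pool.Agent.H28.MCL

theorem card_classes (W n : ℕ) (G : Finset ℕ) (hW : 0 < W) :
    ((Finset.range (n * W)).filter (fun i => i % W ∈ G)).card ≤ G.card * n := by
  have h1 : ((Finset.range (n * W)).filter (fun i => i % W ∈ G)).card ≤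
      (G ×ˢ Finset.range n).card := by
    apply Finset.card_le_card_of_injOn (fun i => (i % W, i / W))
    · intro i hi
      rw [Finset.mem_coe, Finset.mem_filter, Finset.mem_range] at hi
      rw [Finset.mem_coe, Finset.mem_product, Finset.mem_range]
      exact ⟨hi.2, (Nat.div_lt_iff_lt_mul hW).2 hi.1⟩
    · intro i _ j _ hij
      simp only [Prod.mk.injEq] at hij
      rw [← Nat.mod_add_div i W, ← Nat.mod_add_div j W, hij.1, hij.2]
  rwa [Finset.card_product, Finset.card_range] at h1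

theorem card_le_windows (h : ℕ) (S I : Finset ℕ) (hS : ∀ n ∈ S, ∃ i ∈ I, n ≤ i ∧ i ≤ n + h) :
    S.card ≤ I.card * (h + 1) := by
  have h1 : S ⊆ I.biUnion (fun i => Finset.Icc (i - h) i) := by
    intro n hn
    obtain ⟨i, hi, h1, h2⟩ := hS n hn
    rw [Finset.mem_biUnion]
    exact ⟨i, hi, Finset.mem_Icc.2 ⟨by omega, h1⟩⟩
  refine (Finset.card_le_card h1).trans (Finset.card_biUnion_le_card_mul _ _ _ ?_)
  intro i _
  rw [Nat.card_Icc]
  omega

theorem pos : T_POS := by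
  intro r α ε q n₀ hα hε hodd hq hy
  obtain ⟨y₀, hy₀, hF⟩ := hy
  obtain ⟨h, c, hc, hev⟩ := Pool.Agent.H24.T2.sc r α ε q y₀ hα hε hodd hq hF
  obtain ⟨N₀, hN₀⟩ := Filter.eventually_atTop.1 hev
  refine ⟨c / (2 * (h + 1)), by positivity, ?_⟩
  intro w W hW hqW hsq
  obtain ⟨M, hM⟩ : ∃ M : ℕ, M = max N₀ (h + 1) := ⟨_, rfl⟩
  have hM1 : N₀ ≤ M := hM ▸ le_max_left _ _
  have hM2 : h + 1 ≤ M := hM ▸ le_max_right _ _
  have hMW : M ≤ M * W := Nat.le_mul_of_pos_right M hW
  have h1 := hN₀ (M * W) (hM1.trans hMW)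
  obtain ⟨G, hG⟩ : ∃ G : Finset ℕ, G = good α q n₀ w W := ⟨_, rfl⟩
  obtain ⟨I, hI⟩ : ∃ I : Finset ℕ, I = (Finset.range ((2 * M) * W)).filter (fun i => i % W ∈ G) :=
    ⟨_, rfl⟩
  have hIc : I.card ≤ G.card * (2 * M) := by
    rw [hI]
    exact card_classes W (2 * M) G hW
  have h2 : c * ((M * W : ℕ) : ℝ) ≤ ((I.card * (h + 1) : ℕ) : ℝ) := by
    refine h1.trans ?_
    refine Nat.cast_le.2 (card_le_windows h _ I ?_)
    intro n hn
    rw [Finset.mem_filter, Finset.mem_Icc] at hn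
    obtain ⟨⟨hn1, hn2⟩, ⟨i, hi, hi1, hi2⟩, _⟩ := hn
    rw [Finset.mem_Icc] at hi
    refine ⟨i, ?_, hi.1, hi.2⟩
    rw [hI, Finset.mem_filter, Finset.mem_range, hG]
    refine ⟨?_, mem_good α ε hε hW hqW hsq (hi1.trans hy₀) (by rw [hi2]; norm_num)⟩
    have : h + 1 ≤ M * W := hM2.trans hMW
    have e : 2 * M * W = M * W + M * W := by ring
    omega
  have h3 : ((I.card * (h + 1) : ℕ) : ℝ) ≤ (G.card : ℝ) * (2 * M) * (h + 1) := by
    have : I.card * (h + 1) ≤ G.card * (2 * M) * (h + 1) := Nat.mul_le_mul_right _ hIc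
    exact_mod_cast this
  have hMpos : (0 : ℝ) < M := by
    have : 0 < M := by omega
    exact_mod_cast this
  have h4 := h2.trans h3
  rw [← hG]
  push_cast at h4
  have h5 : c * W * M ≤ (G.card * (2 * (h + 1))) * M := by nlinarith
  have h6 := le_of_mul_le_mul_right h5 hMpos
  rw [div_mul_eq_mul_div, div_le_iff₀ (by positivity)]
  exact h6

end Pool.Agent.H59.MCL
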